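import Mathlib
import Pool.Agent.H.MP_77b145_gt.I

set_option autoImplicit false
open Set Metric Topology Filter

namespace Pool.Agent.H.MP_dd0f47_gt

open Pool.Agent.H.MP_77b145_gt

variable {X : Type} [MetricSpace X]

def OC (ε : ℝ) (f : ℝ → X) : Prop := ∀ t, ∀ᶠ s in 𝓝 t, dist (f s) (f t) ≤ ε

lemma OC.glue {ε : ℝ} {f g : ℝ → X} (hf : OC ε f) (hg : OC ε g) (m : ℝ) (h : f m = g m) :
    OC ε (fun t => if t ≤ m then f t else g t) := by
  intro t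
  rcases lt_trichotomy t m with k | k | k
  · filter_upwards [hf t, Iio_mem_nhds k] with s h1 h2
    rwa [if_pos (le_of_lt h2), if_pos k.le]
  · subst k
    filter_upwards [hf t, hg t] with s h1 h2
    rw [if_pos le_rfl]
    split_ifs
    · exact h1
    · rwa [h]
  · filter_upwards [hg t, Ioi_mem_nhds k] with s h1 h2
    rwa [if_neg (not_le.2 h2), if_neg (not_le.2 k)]

lemma chain {C : Set X} (hC : IsPreconnected C) {ε : ℝ} (hε : 0 < ε) {p q : X} (hp : p ∈ C)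
    (hq : q ∈ C) : ∀ s t : ℝ, s < t → ∃ f : ℝ → X, (∀ u, f u ∈ C) ∧ f s = p ∧ f t = q ∧ OC ε f := by
  have one : ∀ a ∈ C, ∀ b ∈ C, dist a b ≤ ε → ∀ s t : ℝ, s < t →
      ∃ f : ℝ → X, (∀ u, f u ∈ C) ∧ f s = a ∧ f t = b ∧ OC ε f := by
    intro a ha b hb hab s t hst
    refine ⟨fun u => if u ≤ s then a else b, fun u => ?_, if_pos le_rfl, if_neg (not_le.2 hst),
      fun u => Eventually.of_forall fun v => ?_⟩
    · dsimp only
      split_ifs
      exacts [ha, hb]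
    · dsimp only
      split_ifs
      · rw [dist_self]; exact hε.le
      · exact hab
      · rwa [dist_comm]
      · rw [dist_self]; exact hε.le
  refine hC.induction₂' (fun p q => ∀ s t : ℝ, s < t →
    ∃ f : ℝ → X, (∀ u, f u ∈ C) ∧ f s = p ∧ f t = q ∧ OC ε f) ?_ ?_ hp hq
  · intro x hx
    filter_upwards [self_mem_nhdsWithin, nhdsWithin_le_nhds (closedBall_mem_nhds x hε)] with y h1 h2
    exact ⟨one x hx y h1 (mem_closedBall'.1 h2), one y h1 x hx (mem_closedBall.1 h2)⟩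
  · intro a b c _ _ _ h1 h2 s t hst
    obtain ⟨m, m1, m2⟩ := exists_between hst
    obtain ⟨f, f1, f2, f3, f4⟩ := h1 s m m1
    obtain ⟨g, g1, g2, g3, g4⟩ := h2 m t m2
    refine ⟨_, fun u => ?_, ?_, ?_, f4.glue g4 m (f3.trans g2.symm)⟩
    · split_ifs
      exacts [f1 u, g1 u]
    · rwa [if_pos m1.le]
    · rwa [if_neg (not_le.2 m2)]

lemma realind (P : ℝ → ℝ → Prop) (h1 : ∀ a m b, a ≤ m → m ≤ b → P a m → P m b → P a b)
    (h2 : ∀ x, ∃ η > 0, ∀ a ∈ ball x η, ∀ b ∈ ball x η, a ≤ b → P a b) : P 0 1 := by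
  have h0 : P 0 0 := by
    obtain ⟨η, e1, e2⟩ := h2 0
    exact e2 0 (mem_ball_self e1) 0 (mem_ball_self e1) le_rfl
  have hne : {t ∈ Icc (0 : ℝ) 1 | P 0 t}.Nonempty := ⟨0, ⟨le_rfl, zero_le_one⟩, h0⟩
  have hb : BddAbove {t ∈ Icc (0 : ℝ) 1 | P 0 t} := ⟨1, fun t ht => ht.1.2⟩
  obtain ⟨η, e1, e2⟩ := h2 (sSup {t ∈ Icc (0 : ℝ) 1 | P 0 t})
  obtain ⟨t, ht, t2⟩ := exists_lt_of_lt_csSup hne (sub_lt_self _ e1)
  have t3 := le_csSup hb ht
  have c1 : sSup {t ∈ Icc (0 : ℝ) 1 | P 0 t} ≤ 1 := csSup_le hne fun t ht => ht.1.2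
  have k := le_csSup hb (a := min (sSup {t ∈ Icc (0 : ℝ) 1 | P 0 t} + η / 2) 1)
  generalize sSup {t ∈ Icc (0 : ℝ) 1 | P 0 t} = c at *
  have m1 : t ≤ min (c + η / 2) 1 := le_min (by linarith) ht.1.2
  have m2 : c ≤ min (c + η / 2) 1 := le_min (by linarith) c1
  have m3 := min_le_left (c + η / 2) 1
  have hp : P 0 (min (c + η / 2) 1) := h1 0 t _ ht.1.1 m1 ht.2 (e2 t (by
    rw [mem_ball, Real.dist_eq, abs_lt]; constructor <;> linarith) _ (by
    rw [mem_ball, Real.dist_eq, abs_lt]; constructor <;> linarith) m1)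
  have k2 := k ⟨⟨ht.1.1.trans m1, min_le_right _ _⟩, hp⟩
  rcases min_choice (c + η / 2) 1 with e | e
  · rw [e] at k2; linarith
  · rwa [e] at hp

def UL (K : Set X) (δ ε : ℝ) : Prop :=
  ∀ p ∈ K, ∀ q ∈ K, dist p q ≤ 2 * δ →
    ∃ C ⊆ K, IsPreconnected C ∧ p ∈ C ∧ q ∈ C ∧ ∀ z ∈ C, dist z p ≤ ε

lemma refine {K : Set X} {δ ε η : ℝ} (hU : UL K δ ε) (hη : 0 < η) {f : ℝ → X} (f1 : ∀ u, f u ∈ K)
    (f2 : OC δ f) : ∃ g : ℝ → X, (∀ u, g u ∈ K) ∧ g 0 = f 0 ∧ g 1 = f 1 ∧ OC η g ∧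
      ∀ u ∈ Icc (0 : ℝ) 1, dist (g u) (f u) ≤ ε + 2 * δ := by
  refine realind (fun a b => ∃ g : ℝ → X, (∀ u, g u ∈ K) ∧ g a = f a ∧ g b = f b ∧ OC η g ∧
      ∀ u ∈ Icc a b, dist (g u) (f u) ≤ ε + 2 * δ) ?_ ?_
  · rintro a m b h1 h2 ⟨g, g1, g2, g3, g4, g5⟩ ⟨k, k1, k2, k3, k4, k5⟩
    refine ⟨_, fun u => ?_, ?_, ?_, g4.glue k4 m (g3.trans k2.symm), fun u hu => ?_⟩
    · split_ifs
      exacts [g1 u, k1 u]
    · rwa [if_pos h1]
    · split_ifs with h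
      · rwa [le_antisymm h h2]
      · exact k3
    · split_ifs with h
      · exact g5 u ⟨hu.1, h⟩
      · exact k5 u ⟨(not_le.1 h).le, hu.2⟩
  · intro x
    obtain ⟨r, r1, r2⟩ := Metric.eventually_nhds_iff_ball.1 (f2 x)
    refine ⟨r, r1, fun a ha b hb hab => ?_⟩
    have hd : ∀ u ∈ Icc a b, dist (f a) (f u) ≤ 2 * δ := fun u hu => by
      have := r2 u ((convex_ball x r).ordConnected.out ha hb hu)
      have := r2 a ha
      have := dist_triangle_right (f a) (f u) (f x)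
      linarith
    obtain ⟨C, c1, c2, c3, c4, c5⟩ := hU _ (f1 a) _ (f1 b) (hd b ⟨hab, le_rfl⟩)
    have : ∃ g : ℝ → X, (∀ u, g u ∈ C) ∧ g a = f a ∧ g b = f b ∧ OC η g := by
      rcases hab.eq_or_lt with rfl | h
      · exact ⟨fun _ => f a, fun _ => c3, rfl, rfl, fun _ => Eventually.of_forall fun _ => by
          rw [dist_self]; exact hη.le⟩
      · exact chain c2 hη c3 c4 a b h
    obtain ⟨g, g1, g2, g3, g4⟩ := this
    refine ⟨g, fun u => c1 (g1 u), g2, g3, g4, fun u hu => ?_⟩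
    have := c5 _ (g1 u)
    have := hd u hu
    have := dist_triangle (g u) (f a) (f u)
    linarith

lemma ulc (hN : Nul X) {K : Set X} (hK : IsCompact K) (hc : IsPreconnected K) {ε : ℝ}
    (hε : 0 < ε) : ∃ δ > 0, δ ≤ ε ∧ UL K δ ε := by
  have : ∀ y : K, ∃ N U : Set X, N ⊆ K ∩ closedBall y (ε / 2) ∧ IsPreconnected N ∧ IsOpen U ∧
      y.1 ∈ U ∧ U ∩ K ⊆ N := fun y => by
    obtain ⟨N, n1, -, n2, n3⟩ := hN.lc hK hc y.2 (half_pos hε)
    obtain ⟨U, u1, u2, u3⟩ := mem_nhdsWithin.1 n3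
    exact ⟨N, U, n1, n2, u1, u2, u3⟩
  choose N U n1 n2 u1 u2 u3 using this
  obtain ⟨δ, d1, d2⟩ := lebesgue_number_lemma_of_metric hK u1
    (fun y hy => mem_iUnion.2 ⟨⟨y, hy⟩, u2 _⟩)
  refine ⟨min (δ / 3) ε, lt_min (by linarith) hε, min_le_right _ _, fun p hp q hq h => ?_⟩
  obtain ⟨y, hy⟩ := d2 p hp
  have h1 := min_le_left (δ / 3) ε
  have hp' := u3 y ⟨hy (mem_ball_self d1), hp⟩
  refine ⟨N y, fun z hz => (n1 y hz).1, n2 y, hp', u3 y ⟨hy (mem_ball'.2 (by linarith)), hq⟩,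
    fun z hz => ?_⟩
  have := mem_closedBall.1 (n1 y hz).2
  have := mem_closedBall.1 (n1 y hp').2
  have := dist_triangle_right z p y
  linarith

lemma peano [CompactSpace X] (hN : Nul X) {K : Set X} (hK : IsCompact K) (hc : IsPreconnected K)
    {a b : X} (ha : a ∈ K) (hb : b ∈ K) : JoinedIn K a b := by
  have h0 : ∀ n : ℕ, (0 : ℝ) < (1 / 2) ^ n := fun n => by positivity
  choose δ d1 d2 d3 using fun n : ℕ => ulc hN hK hc (h0 n)
  let Q : ℕ → (ℝ → X) → Prop := fun n f => (∀ u, f u ∈ K) ∧ f 0 = a ∧ f 1 = b ∧ OC (δ n) f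
  have step : ∀ n (f : {f // Q n f}), ∃ g : {f // Q (n + 1) f},
      ∀ u ∈ Icc (0 : ℝ) 1, dist (f.1 u) (g.1 u) ≤ 3 * (1 / 2) ^ n := by
    rintro n ⟨f, f1, f2, f3, f4⟩
    obtain ⟨g, g1, g2, g3, g4, g5⟩ := refine (d3 n) (d1 (n + 1)) f1 f4
    refine ⟨⟨g, g1, g2.trans f2, g3.trans f3, g4⟩, fun u hu => ?_⟩
    have := g5 u hu
    have := d2 n
    show dist (f u) (g u) ≤ _
    rw [dist_comm]
    linarith
  choose nx hnx using step
  obtain ⟨f0, hf0⟩ := chain hc (d1 0) ha hb 0 1 one_pos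
  let F : ∀ n, {f // Q n f} := fun n => Nat.rec ⟨f0, hf0⟩ (fun n f => nx n f) n
  have hF : ∀ (u : unitInterval) n, dist ((F n).1 u) ((F (n + 1)).1 u) ≤ 3 * (1 / 2) ^ n :=
    fun u n => hnx n (F n) u u.2
  have hlt : (1 / 2 : ℝ) < 1 := by norm_num
  choose γ hγ using fun u : unitInterval =>
    cauchySeq_tendsto_of_complete (cauchySeq_of_le_geometric _ _ hlt (hF u))
  have hd : ∀ (u : unitInterval) n, dist ((F n).1 u) (γ u) ≤ 6 * (1 / 2) ^ n := fun u n => by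
    refine (dist_le_of_le_geometric_of_tendsto _ _ hlt (hF u) (hγ u) n).trans_eq ?_
    ring
  have hcont : Continuous γ := by
    rw [Metric.continuous_iff']
    intro u ε hε
    obtain ⟨n, hn⟩ := exists_pow_lt_of_lt_one (show 0 < ε / 13 by linarith) hlt
    filter_upwards [continuous_subtype_val.continuousAt.eventually ((F n).2.2.2.2 u)] with v hv
    have := hd u n
    have := hd v n
    have := d2 n
    have := dist_triangle4_left ((F n).1 v) ((F n).1 u) (γ v) (γ u)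
    linarith
  refine ⟨⟨⟨γ, hcont⟩, ?_, ?_⟩, fun u => ?_⟩
  · refine tendsto_nhds_unique (hγ 0) (tendsto_const_nhds.congr fun n => ?_)
    exact (F n).2.2.1.symm
  · refine tendsto_nhds_unique (hγ 1) (tendsto_const_nhds.congr fun n => ?_)
    exact (F n).2.2.2.1.symm
  · exact hK.isClosed.mem_of_tendsto (hγ u) (Eventually.of_forall fun n => (F n).2.1 _)

end Pool.Agent.H.MP_dd0f47_gt
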