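import Mathlib
import Pool.Agent.H.MP_77b145_gt.I

set_option autoImplicit false
open Set Metric Topology Filter

namespace Pool.Agent.H.MP_dd0f47_gt

open Pool.Agent.H.MP_77b145_gt

variable {X : Type} [MetricSpace X]

lemma clop {D o c : Set X} (hD : IsPreconnected D) (ho : IsOpen o) (hc : IsClosed c)
    (h : ∀ z ∈ D, z ∈ o ↔ z ∈ c) {p : X} (hp : p ∈ D) (hp' : p ∉ o) : ∀ z ∈ D, z ∉ o := by
  rcases isPreconnected_iff_subset_of_disjoint.1 hD o cᶜ ho hc.isOpen_compl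
    (fun z hz => by
      by_cases k : z ∈ c
      · exact Or.inl ((h z hz).2 k)
      · exact Or.inr k)
    (eq_empty_of_forall_notMem fun z hz => hz.2.2 ((h z hz.1).1 hz.2.1)) with k | k
  · exact absurd (k hp) hp'
  · exact fun z hz l => k hz ((h z hz).1 l)

lemma lcD [CompactSpace X] [ConnectedSpace X] (hN : Nul X) {D : Set X} (hD : IsPreconnected D)
    {p : X} (hp : p ∈ D) {U : Set X} (hU : U ∈ 𝓝 p) :
    connectedComponentIn (D ∩ U) p ∈ 𝓝[D] p := by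
  obtain ⟨r, r1, r2⟩ := Metric.nhds_basis_closedBall.mem_iff.1 hU
  obtain ⟨V, v1, v2, v3, v4⟩ : ∃ V : Set X, IsOpen V ∧ p ∈ V ∧ V ⊆ ball p r ∧
      (frontier V).Finite := by
    by_contra k
    push Not at k
    obtain ⟨K, hK⟩ := exists_ker isOpen_ball (mem_ball_self r1) k
    exact hN.noker hK
  have v5 : closure V ⊆ U := (closure_mono v3).trans (closure_ball_subset_closedBall.trans r2)
  let P : Set X → Prop := fun A => p ∈ A ∧ A ⊆ D ∩ closure V ∧ ∃ o c, IsOpen o ∧ IsClosed c ∧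
    (∀ z ∈ D ∩ closure V, z ∈ A ↔ z ∈ o) ∧ ∀ z ∈ D ∩ closure V, z ∈ A ↔ z ∈ c
  obtain ⟨⟨A, a1, a2, o, c, a3, a4, a5, a6⟩, hm⟩ := exists_minimalFor_of_wellFoundedLT
    (fun _ : {A // P A} => True) (fun A => (A.1 ∩ frontier V).ncard)
    ⟨⟨D ∩ closure V, ⟨hp, subset_closure v2⟩, subset_rfl, univ, univ, isOpen_univ, isClosed_univ,
      fun z hz => iff_of_true hz trivial, fun z hz => iff_of_true hz trivial⟩, trivial⟩
  have key : ∀ u v, IsOpen u → IsOpen v → A ⊆ u ∪ v → A ∩ (u ∩ v) = ∅ → p ∈ u → A ⊆ u := by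
    intro u v hu hv h1 h2 h3
    have h4 : ∀ z ∈ A, z ∈ u ↔ z ∉ v := fun z hz =>
      ⟨fun k l => (eq_empty_iff_forall_notMem.1 h2) z ⟨hz, k, l⟩, fun k => (h1 hz).resolve_right k⟩
    have h5 : A ∩ frontier V ⊆ u := by
      by_contra k
      obtain ⟨w, w1, w2⟩ := not_subset.1 k
      have hlt : (A ∩ u ∩ frontier V).ncard < (A ∩ frontier V).ncard :=
        ncard_lt_ncard ⟨fun z hz => ⟨hz.1.1, hz.2⟩, fun l => w2 (l w1).1.2⟩
          (v4.subset inter_subset_right)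
      exact absurd (hm.2 (j := ⟨A ∩ u, ⟨a1, h3⟩, inter_subset_left.trans a2, o ∩ u, c ∩ vᶜ,
        a3.inter hu, a4.inter hv.isClosed_compl,
        fun z hz => and_congr_left' (a5 z hz),
        fun z hz => ⟨fun l => ⟨(a6 z hz).1 l.1, (h4 z l.1).1 l.2⟩,
          fun l => ⟨(a6 z hz).2 l.1, (h4 z ((a6 z hz).2 l.1)).2 l.2⟩⟩⟩) trivial hlt.le)
        (not_le.2 hlt)
    have h6 := clop hD ((v1.inter a3).inter hv)
      ((isClosed_closure (s := V)).inter (a4.inter hu.isClosed_compl)) (p := p) (fun z hz => ?_) hp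
      (fun l => (h4 p a1).1 h3 l.2)
    · intro z hz
      by_contra l
      have l2 : z ∈ V := by
        by_contra l3
        exact l (h5 ⟨hz, by rw [v1.frontier_eq]; exact ⟨(a2 hz).2, l3⟩⟩)
      exact h6 z (a2 hz).1 ⟨⟨l2, (a5 z (a2 hz)).1 hz⟩, (h1 hz).resolve_left l⟩
    · constructor
      · rintro ⟨⟨l1, l2⟩, l3⟩
        have l4 := (a5 z ⟨hz, subset_closure l1⟩).2 l2
        exact ⟨subset_closure l1, (a6 z (a2 l4)).1 l4, fun l5 => (h4 z l4).1 l5 l3⟩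
      · rintro ⟨l1, l2, l3⟩
        have l4 := (a6 z ⟨hz, l1⟩).2 l2
        refine ⟨⟨?_, (a5 z ⟨hz, l1⟩).1 l4⟩, (h1 l4).resolve_left l3⟩
        by_contra l5
        exact l3 (h5 ⟨l4, by rw [v1.frontier_eq]; exact ⟨l1, l5⟩⟩)
  have hA : IsPreconnected A := by
    refine isPreconnected_iff_subset_of_disjoint.2 fun u v hu hv h1 h2 => ?_
    rcases h1 a1 with k | k
    · exact Or.inl (key u v hu hv h1 h2 k)
    · exact Or.inr (key v u hv hu (union_comm u v ▸ h1) (inter_comm u v ▸ h2) k)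
  refine mem_of_superset ?_ (hA.subset_connectedComponentIn a1
    fun z hz => ⟨(a2 hz).1, v5 (a2 hz).2⟩)
  refine mem_nhdsWithin.2 ⟨V ∩ o, v1.inter a3, ⟨v2, (a5 p (a2 a1)).1 a1⟩, fun z hz => ?_⟩
  exact (a5 z ⟨hz.2, subset_closure hz.1.1⟩).2 hz.1.2

lemma finι (hN : Nul X) {ι : Type} {A : ι → Set X} (h1 : ∀ i, IsPreconnected (A i))
    (h2 : Pairwise fun i j => Disjoint (A i) (A j)) {δ : ℝ} (hδ : 0 < δ) :
    {i | Big δ (A i)}.Finite := by
  by_contra hi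
  have hi' : {i | Big δ (A i)}.Infinite := hi
  exact hN δ hδ (fun n => A (hi'.natEmbedding _ n)) (fun _ => h1 _)
    (fun i j h => h2 fun e => h ((hi'.natEmbedding _).injective (Subtype.ext e)))
    fun n => (hi'.natEmbedding _ n).2

lemma nullc {ι : Type} {Q : Set X} {E : ι → Set X} (hQ : IsClosed Q) (hE : ∀ i, IsClosed (E i))
    (h : ∀ δ > 0, {i | ¬ E i ⊆ cthickening δ Q}.Finite) : IsClosed (Q ∪ ⋃ i, E i) := by
  refine isClosed_of_closure_subset fun z hz => ?_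
  by_contra k
  refine k (Or.inl ?_)
  rw [← hQ.closure_eq, closure_eq_iInter_cthickening]
  refine mem_iInter₂.2 fun δ hδ => ?_
  have h1 : IsClosed (cthickening δ Q ∪ ⋃ i ∈ {i | ¬ E i ⊆ cthickening δ Q}, E i) :=
    isClosed_cthickening.union ((h δ hδ).isClosed_biUnion fun i _ => hE i)
  have h2 : Q ∪ ⋃ i, E i ⊆ cthickening δ Q ∪ ⋃ i ∈ {i | ¬ E i ⊆ cthickening δ Q}, E i := by
    rintro w (hw | hw)
    · exact Or.inl (self_subset_cthickening _ hw)
    · obtain ⟨i, hi⟩ := mem_iUnion.1 hw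
      by_cases l : E i ⊆ cthickening δ Q
      · exact Or.inl (l hi)
      · exact Or.inr (mem_biUnion l hi)
  rcases closure_minimal h2 h1 hz with l | l
  · exact l
  · obtain ⟨i, -, hi⟩ := mem_iUnion₂.1 l
    exact absurd (Or.inr (mem_iUnion.2 ⟨i, hi⟩)) k

lemma nullc' (hN : Nul X) {ι : Type} {Q : Set X} {E : ι → Set X} (hQ : IsClosed Q)
    (hE : ∀ i, IsClosed (E i)) (h1 : ∀ i, IsPreconnected (E i))
    (h2 : Pairwise fun i j => Disjoint (E i) (E j))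
    (h3 : ∀ i, (E i).Nonempty → (E i ∩ Q).Nonempty) : IsClosed (Q ∪ ⋃ i, E i) := by
  refine nullc hQ hE fun δ hδ => (finι hN h1 h2 hδ).subset fun i hi => ?_
  obtain ⟨z, z1, z2⟩ := not_subset.1 hi
  obtain ⟨w, w1, w2⟩ := h3 i ⟨z, z1⟩
  refine ⟨z, z1, w, w1, ?_⟩
  by_contra k
  exact z2 (mem_cthickening_of_dist_le z w δ Q w2 (not_le.1 k).le)

lemma nested [CompactSpace X] {T : ℕ → Set X} (h1 : ∀ n, IsClosed (T n))
    (h2 : ∀ n, IsPreconnected (T n)) (h3 : Antitone T) : IsPreconnected (⋂ n, T n) := by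
  refine isPreconnected_closed_iff.2 fun a b ha hb h4 ⟨x, x1, x2⟩ ⟨y, y1, y2⟩ => ?_
  by_contra k
  have hc := isClosed_iInter h1
  obtain ⟨u, v, hu, hv, u1, v1, huv⟩ := normal_separation (hc.inter ha) (hc.inter hb)
    (disjoint_left.2 fun z z1 z2 => k ⟨z, z1.1, z1.2, z2.2⟩)
  obtain ⟨n, hn⟩ := exists_subset_nhds_of_compactSpace (U := u ∪ v) h3.directed_ge h1
    fun z hz => (hu.union hv).mem_nhds ((h4 hz).imp (fun l => u1 ⟨hz, l⟩) fun l => v1 ⟨hz, l⟩)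
  obtain ⟨z, -, z1, z2⟩ := h2 n u v hu hv hn ⟨x, mem_iInter.1 x1 n, u1 ⟨x1, x2⟩⟩
    ⟨y, mem_iInter.1 y1 n, v1 ⟨y1, y2⟩⟩
  exact disjoint_left.1 huv z1 z2

def ex (D Z : Set X) (p : X) (i : ℕ) : Set X :=
  connectedComponentIn (D \ thickening (1 / ((i : ℝ) + 1)) Z) p

lemma ex_mono (D Z : Set X) (p : X) : Monotone (ex D Z p) := fun i j h =>
  connectedComponentIn_mono _ (diff_subset_diff_right (thickening_mono
    (Nat.one_div_le_one_div h) _))

lemma exh [CompactSpace X] [ConnectedSpace X] (hN : Nul X) {D Z Q : Set X}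
    (hD : IsPreconnected D) (hZ : IsClosed Z) (h : Disjoint D Z) {p : X} (hp : p ∈ D)
    (hQ : IsCompact Q) (hQD : Q ⊆ D) : ∃ i, Q ⊆ ex D Z p i := by
  have loc : ∀ q ∈ D, ∃ i, ex D Z q i ∈ 𝓝[D] q := by
    intro q hq
    obtain ⟨δ, d1, d2⟩ := (disjoint_singleton_left.2 (disjoint_left.1 h hq)).exists_thickenings
      isCompact_singleton hZ
    obtain ⟨i, hi⟩ := exists_nat_one_div_lt d1
    refine ⟨i, mem_of_superset (lcD hN hD hq (ball_mem_nhds q d1))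
      (connectedComponentIn_mono _ fun z hz => ⟨hz.1, fun k => ?_⟩)⟩
    rw [thickening_singleton] at d2
    exact disjoint_left.1 d2 hz.2 (thickening_mono hi.le _ k)
  have tr : ∀ a b i j, b ∈ ex D Z a i → ex D Z b j ⊆ ex D Z a (max i j) := fun a b i j k =>
    (ex_mono D Z b (le_max_right i j)).trans
      (connectedComponentIn_eq (ex_mono D Z a (le_max_left i j) k)).symm.subset
  have all : ∀ q ∈ D, ∃ i, q ∈ ex D Z p i := fun q hq => by
    refine hD.induction₂' (fun a b => ∃ i, b ∈ ex D Z a i) (fun x hx => ?_) ?_ hp hq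
    · obtain ⟨i, hi⟩ := loc x hx
      filter_upwards [hi] with y hy
      exact ⟨⟨i, hy⟩, i, (connectedComponentIn_eq hy).subset (mem_of_mem_nhdsWithin hx hi)⟩
    · rintro a b c - - - ⟨i, hi⟩ ⟨j, hj⟩
      exact ⟨_, tr a b i j hi hj⟩
  refine hQ.induction_on (p := fun s => ∃ i, s ⊆ ex D Z p i) ⟨0, empty_subset _⟩
    (fun s t k ⟨i, hi⟩ => ⟨i, k.trans hi⟩) (fun s t ⟨i, hi⟩ ⟨j, hj⟩ => ⟨max i j, union_subset
      (hi.trans (ex_mono D Z p (le_max_left _ _))) (hj.trans (ex_mono D Z p (le_max_right _ _)))⟩)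
    fun q hq => ?_
  obtain ⟨i, hi⟩ := all q (hQD hq)
  obtain ⟨j, hj⟩ := loc q (hQD hq)
  exact ⟨_, nhdsWithin_mono _ hQD hj, _, tr p q i j hi⟩

lemma getT [CompactSpace X] [ConnectedSpace X] (hN : Nul X) {κ : Type} [Countable κ] [Nonempty κ]
    {D : Set X} (hD : IsPreconnected D) {x y : X} (hx : x ∈ D) (hy : y ∈ D) {Z : κ → Set X}
    (hZ : ∀ m, IsClosed (Z m)) (h : ∀ m, Disjoint D (Z m)) :
    ∃ T, IsClosed T ∧ IsPreconnected T ∧ T ⊆ closure D ∧ x ∈ T ∧ y ∈ T ∧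
      ∀ m, Disjoint T (Z m) := by
  obtain ⟨e, he⟩ := exists_surjective_nat κ
  have step : ∀ (E : {E : Set X // IsPreconnected E ∧ E ⊆ D ∧ x ∈ E ∧ y ∈ E}) (m : κ),
      ∃ F : {E : Set X // IsPreconnected E ∧ E ⊆ D ∧ x ∈ E ∧ y ∈ E}, F.1 ⊆ E.1 ∧
        Disjoint (closure F.1) (Z m) := by
    rintro ⟨E, e1, e2, e3, e4⟩ m
    obtain ⟨i, hi⟩ := exh hN e1 (hZ m) ((h m).mono_left e2) e3 (toFinite {x, y}).isCompact
      (pair_subset e3 e4)
    have s := connectedComponentIn_subset (E \ thickening (1 / ((i : ℝ) + 1)) (Z m)) x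
    refine ⟨⟨ex E (Z m) x i, isPreconnected_connectedComponentIn, fun z hz => e2 (s hz).1,
      hi (by simp), hi (by simp)⟩, fun z hz => (s hz).1, disjoint_left.2 fun z z1 z2 => ?_⟩
    exact closure_minimal (fun z hz => (s hz).2) isOpen_thickening.isClosed_compl z1
      (self_subset_thickening Nat.one_div_pos_of_nat _ z2)
  choose g g1 g2 using step
  let F : ℕ → {E : Set X // IsPreconnected E ∧ E ⊆ D ∧ x ∈ E ∧ y ∈ E} := fun n =>
    Nat.rec ⟨D, hD, subset_rfl, hx, hy⟩ (fun k E => g E (e k)) n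
  refine ⟨⋂ n, closure (F n).1, isClosed_iInter fun _ => isClosed_closure,
    nested (fun _ => isClosed_closure) (fun n => (F n).2.1.closure)
      (antitone_nat_of_succ_le fun n => closure_mono (g1 _ _)), iInter_subset _ 0,
    mem_iInter.2 fun n => subset_closure (F n).2.2.2.1,
    mem_iInter.2 fun n => subset_closure (F n).2.2.2.2, fun m => ?_⟩
  obtain ⟨n, rfl⟩ := he m
  exact (g2 (F n) (e n)).mono_left (iInter_subset _ (n + 1))

lemma findD [CompactSpace X] [ConnectedSpace X] (hN : Nul X) {S : Set X} (hS : IsPreconnected S)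
    (hn : S.Nontrivial) {x : X} (hx : x ∈ closure S) {r : ℝ} (hr : 0 < r) :
    ∃ D, D ⊆ S ∩ ball x r ∧ IsPreconnected D ∧ D.Nontrivial ∧ x ∈ closure D := by
  by_cases h : S ⊆ ball x r
  · exact ⟨S, subset_inter subset_rfl h, hS, hn, hx⟩
  obtain ⟨b, b1, b2⟩ := not_subset.1 h
  have big : ∀ p ∈ ball x (r / 2) ∩ S, Big (r / 4) (connectedComponentIn (S ∩ ball x r) p) := by
    intro p hp
    by_contra k
    have hp' : p ∈ S ∩ ball x r := ⟨hp.2, ball_subset_ball (by linarith) hp.1⟩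
    have m := mem_connectedComponentIn hp'
    have c1 : closure (connectedComponentIn (S ∩ ball x r) p) ⊆ ball x r := by
      refine (closure_minimal (fun z hz => ?_) (isClosed_closedBall (x := x)
        (ε := 3 * r / 4))).trans (closedBall_subset_ball (by linarith))
      have : dist z p < r / 4 := not_le.1 fun l => k ⟨z, hz, p, m, l⟩
      have := mem_ball.1 hp.1
      have := dist_triangle z p x
      exact mem_closedBall.2 (by linarith)
    refine b2 (connectedComponentIn_subset (S ∩ ball x r) p ((hS.induction₂' (fun a b =>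
      a ∈ connectedComponentIn (S ∩ ball x r) p ↔ b ∈ connectedComponentIn (S ∩ ball x r) p)
      (fun a ha => ?_) (fun _ _ _ _ _ _ => Iff.trans) hp.2 b1).1 m)).2
    by_cases l : a ∈ closure (connectedComponentIn (S ∩ ball x r) p)
    · have l2 : a ∈ connectedComponentIn (S ∩ ball x r) p :=
        (isPreconnected_connectedComponentIn.subset_closure (subset_insert a _)
          (insert_subset l subset_closure)).subset_connectedComponentIn (Or.inr m)
          (insert_subset (mem_inter ha (c1 l)) (connectedComponentIn_subset _ _)) (Or.inl rfl)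
      filter_upwards [lcD hN hS ha (isOpen_ball.mem_nhds (c1 l))] with y hy
      rw [← connectedComponentIn_eq l2] at hy
      exact ⟨iff_of_true l2 hy, iff_of_true hy l2⟩
    · filter_upwards [nhdsWithin_le_nhds (isClosed_closure.isOpen_compl.mem_nhds l)] with y hy
      exact ⟨iff_of_false (fun k => l (subset_closure k)) fun k => hy (subset_closure k),
        iff_of_false (fun k => hy (subset_closure k)) fun k => l (subset_closure k)⟩
  obtain ⟨p, p1, p2⟩ := hN.near (show 0 < r / 4 by linarith) (S ∩ ball x r) _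
    (fun z hz => ⟨hz.2, ball_subset_ball (by linarith) hz.1⟩) big
    (isOpen_ball.inter_closure ⟨mem_ball_self (half_pos hr), hx⟩)
  refine ⟨_, connectedComponentIn_subset _ _, isPreconnected_connectedComponentIn, ?_, p2⟩
  obtain ⟨u, hu, v, hv, k⟩ := big p p1
  refine ⟨u, hu, v, hv, fun e => ?_⟩
  rw [e, dist_self] at k
  linarith

/-- connectedness through a compact set with a real function -/
lemma conL {A Q : Set X} (hQ : IsCompact Q) {u : X → ℝ} (hu : ContinuousOn u Q)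
    (h1 : IsPreconnected (u '' Q)) (h2 : Q ⊆ A)
    (h3 : ∀ a ∈ Q, ∀ b ∈ Q, u a = u b → ∃ W ⊆ A, IsPreconnected W ∧ a ∈ W ∧ b ∈ W)
    (h4 : ∀ a ∈ A, ∃ b ∈ Q, ∃ W ⊆ A, IsPreconnected W ∧ a ∈ W ∧ b ∈ W) : IsPreconnected A := by
  refine isPreconnected_closed_iff.2 fun s t hs ht c ⟨x, x1, x2⟩ ⟨y, y1, y2⟩ => ?_
  by_contra k
  have key : ∀ W ⊆ A, IsPreconnected W → ∀ a ∈ W, ∀ b ∈ W, a ∈ s → b ∈ t → False :=
    fun W w1 w2 a ha b hb a1 b1 => by
      obtain ⟨z, z1, z2⟩ := isPreconnected_closed_iff.1 w2 s t hs ht (w1.trans c) ⟨a, ha, a1⟩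
        ⟨b, hb, b1⟩
      exact k ⟨z, w1 z1, z2⟩
  obtain ⟨x', hx', W, w1, w2, w3, w4⟩ := h4 x x1
  obtain ⟨y', hy', V, v1, v2, v3, v4⟩ := h4 y y1
  obtain ⟨_, -, ⟨a, ha, rfl⟩, b, hb, e⟩ := isPreconnected_closed_iff.1 h1 _ _
    ((hQ.inter_right hs).image_of_continuousOn (hu.mono inter_subset_left)).isClosed
    ((hQ.inter_right ht).image_of_continuousOn (hu.mono inter_subset_left)).isClosed
    (by
      rintro _ ⟨z, hz, rfl⟩
      exact (c (h2 hz)).imp (fun l => ⟨z, ⟨hz, l⟩, rfl⟩) fun l => ⟨z, ⟨hz, l⟩, rfl⟩)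
    ⟨_, ⟨x', hx', rfl⟩, x', ⟨hx', (c (w1 w4)).resolve_right (key W w1 w2 x w3 x' w4 x2)⟩, rfl⟩
    ⟨_, ⟨y', hy', rfl⟩, y', ⟨hy', (c (v1 v4)).resolve_left
      fun l => key V v1 v2 y' v4 y v3 l y2⟩, rfl⟩
  obtain ⟨W, w1, w2, w3, w4⟩ := h3 a ha.1 b hb.1 e.symm
  exact key W w1 w2 a w3 b w4 ha.2 hb.2

lemma fac {Q : Set X} (hQ : IsCompact Q) {u v : X → ℝ} (hu : ContinuousOn u Q)
    (hv : ContinuousOn v Q) (h1 : IsPreconnected (u '' Q))
    (h2 : ∀ a ∈ Q, ∀ b ∈ Q, u a = u b → v a = v b) : IsPreconnected (v '' Q) := by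
  refine isPreconnected_closed_iff.2 ?_
  rintro s t hs ht c ⟨_, ⟨x, x1, rfl⟩, x2⟩ ⟨_, ⟨y, y1, rfl⟩, y2⟩
  have cp : ∀ s, IsClosed s → IsClosed (u '' (Q ∩ v ⁻¹' s)) := fun s hs =>
    ((hQ.of_isClosed_subset (hv.preimage_isClosed_of_isClosed hQ.isClosed hs)
      inter_subset_left).image_of_continuousOn (hu.mono inter_subset_left)).isClosed
  obtain ⟨_, -, ⟨a, ha, rfl⟩, b, hb, e⟩ := isPreconnected_closed_iff.1 h1 _ _ (cp s hs) (cp t ht)
    (by
      rintro _ ⟨z, hz, rfl⟩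
      exact (c ⟨z, hz, rfl⟩).imp (fun l => ⟨z, ⟨hz, l⟩, rfl⟩) fun l => ⟨z, ⟨hz, l⟩, rfl⟩)
    ⟨_, ⟨x, x1, rfl⟩, x, ⟨x1, x2⟩, rfl⟩ ⟨_, ⟨y, y1, rfl⟩, y, ⟨y1, y2⟩, rfl⟩
  exact ⟨v a, ⟨a, ha.1, rfl⟩, ha.2, h2 b hb.1 a ha.1 e ▸ hb.2⟩

end Pool.Agent.H.MP_dd0f47_gt
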