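import Mathlib
import Pool.Agent.H.MP_dd0f47_gt.B

set_option autoImplicit false
open Set Metric Topology Filter

namespace Pool.Agent.H.MP_dd0f47_gt

open Pool.Agent.H.MP_77b145_gt

variable {X : Type} [MetricSpace X]

def cp (S : Set X) (x : X) : Set X :=
  {y | ∃ C ⊆ S, IsCompact C ∧ IsPreconnected C ∧ x ∈ C ∧ y ∈ C}

lemma cp_sub {S : Set X} {x : X} : cp S x ⊆ S := fun _ ⟨_, h, _, _, _, k⟩ => h k

lemma cp_self {S : Set X} {x : X} (h : x ∈ S) : x ∈ cp S x :=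
  ⟨{x}, singleton_subset_iff.2 h, isCompact_singleton, isPreconnected_singleton, rfl, rfl⟩

lemma cp_symm {S : Set X} {x y : X} (h : y ∈ cp S x) : x ∈ cp S y :=
  let ⟨C, a, b, c, d, e⟩ := h
  ⟨C, a, b, c, e, d⟩

lemma cp_trans {S : Set X} {x y z : X} (h : y ∈ cp S x) (k : z ∈ cp S y) : z ∈ cp S x :=
  let ⟨C, a, b, c, d, e⟩ := h
  let ⟨D, a', b', c', d', e'⟩ := k
  ⟨C ∪ D, union_subset a a', b.union b', c.union y e d' c', Or.inl d, Or.inr e'⟩

lemma cp_eq {S : Set X} {x y : X} (h : y ∈ cp S x) : cp S y = cp S x :=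
  Subset.antisymm (fun _ k => cp_trans h k) fun _ k => cp_trans (cp_symm h) k

lemma cp_mono {S T : Set X} (h : S ⊆ T) (x : X) : cp S x ⊆ cp T x :=
  fun _ ⟨C, a, b⟩ => ⟨C, a.trans h, b⟩

lemma cp_pre (S : Set X) (x : X) : IsPreconnected (cp S x) :=
  isPreconnected_of_forall x fun _ ⟨C, a, b, c, d, e⟩ =>
    ⟨C, fun _ hz => ⟨C, a, b, c, d, hz⟩, d, e, c⟩

lemma cp_fin {S F : Set X} {x : X} (hx : x ∈ S) (hF : F.Finite) (h : F ⊆ cp S x) :
    ∃ C ⊆ cp S x, IsCompact C ∧ IsPreconnected C ∧ x ∈ C ∧ F ⊆ C := by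
  induction F, hF using Set.Finite.induction_on with
  | empty => exact ⟨{x}, singleton_subset_iff.2 (cp_self hx), isCompact_singleton,
      isPreconnected_singleton, rfl, empty_subset _⟩
  | insert _ _ ih =>
    obtain ⟨C, a, b, c, d, e⟩ := ih ((subset_insert _ _).trans h)
    obtain ⟨D, a', b', c', d', e'⟩ := h (mem_insert _ _)
    exact ⟨C ∪ D, union_subset a fun _ hz => ⟨D, a', b', c', d', hz⟩, b.union b',
      c.union x d d' c', Or.inl d, insert_subset (Or.inr e') (e.trans subset_union_left)⟩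

lemma cp_disj (S : Set X) (R : Set (Set X)) (h : ∀ A ∈ R, ∃ x, A = cp S x) :
    Pairwise fun a b : R => Disjoint a.1 b.1 := fun a b k => disjoint_left.2 fun z h1 h2 => by
  obtain ⟨x, hx⟩ := h a.1 a.2
  obtain ⟨y, hy⟩ := h b.1 b.2
  refine k (Subtype.ext ?_)
  rw [hx] at h1 ⊢
  rw [hy] at h2 ⊢
  exact (cp_eq h1).symm.trans (cp_eq h2)

lemma raystep (hN : Nul X) {S : Set X} {x s : X} (hs : s ∈ closure (cp S x)) {r : ℝ} (h0 : 0 < r)
    (hr : r < dist x s) : ∃ p ∈ cp S x, s ∈ closure (cp (S ∩ closedBall s r) p) ∧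
      p ∈ closedBall s r := by
  let R := (fun p => cp (S ∩ closedBall s r) p) '' (ball s (r / 2) ∩ cp S x)
  have hb : ∀ p ∈ ball s (r / 2) ∩ cp S x, p ∈ closedBall s r := fun p hp =>
    ball_subset_closedBall (ball_subset_ball (by linarith) hp.1)
  have hf := finι hN (A := fun a : R => a.1) (fun ⟨_, p, _, e⟩ => e ▸ cp_pre _ _)
    (cp_disj _ R fun _ ⟨p, _, e⟩ => ⟨p, e.symm⟩) (half_pos h0)
  have hf2 : R.Finite := by
    refine (hf.image Subtype.val).subset fun A hA => ⟨⟨A, hA⟩, ?_, rfl⟩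
    obtain ⟨p, hp, rfl⟩ := hA
    obtain ⟨C, a, b, c, d, e⟩ := hp.2
    obtain ⟨q, hq, hq'⟩ := bump b c (fun k => absurd (mem_closedBall.1 (k d)) (not_le.2 hr))
      ⟨e, hb p hp⟩
    have s1 := connectedComponentIn_subset (C ∩ closedBall s r) p
    refine ⟨p, cp_self ⟨a e, hb p hp⟩, q, ⟨_, s1.trans (inter_subset_inter_left _ a),
      b.of_isClosed_subset (cc_closed (b.isClosed.inter isClosed_closedBall) _)
        fun z hz => (s1 hz).1, isPreconnected_connectedComponentIn,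
      mem_connectedComponentIn ⟨e, hb p hp⟩, hq⟩, ?_⟩
    have := dist_triangle_left q s p
    have := mem_ball.1 hp.1
    linarith
  have h2 := closure_mono (show _ ⊆ ⋃₀ R from fun p hp =>
    ⟨_, ⟨p, hp, rfl⟩, cp_self ⟨cp_sub hp.2, hb p hp⟩⟩)
    (isOpen_ball.inter_closure ⟨mem_ball_self (half_pos h0), hs⟩)
  rw [hf2.closure_sUnion] at h2
  simp only [mem_iUnion] at h2
  obtain ⟨_, ⟨p, hp, rfl⟩, h3⟩ := h2
  exact ⟨p, hp.2, h3, hb p hp⟩

lemma ray [CompactSpace X] (hN : Nul X) {S : Set X} {x s : X} (h1 : s ∈ S)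
    (hs : s ∈ closure (cp S x)) : s ∈ cp S x := by
  by_contra hn
  have hx : x ∈ S := by
    obtain ⟨y, hy⟩ := closure_nonempty_iff.1 ⟨s, hs⟩
    exact cp_sub (cp_symm hy)
  let Q : ℝ × X → Prop := fun a => 0 < a.1 ∧ a.2 ∈ cp S x ∧
    s ∈ closure (cp (S ∩ closedBall s a.1) a.2)
  have ne : ∀ p ∈ cp S x, 0 < dist p s := fun p hp => dist_pos.2 fun e => hn (e ▸ hp)
  have step : ∀ a : {a // Q a}, ∃ (b : {a // Q a}) (C : Set X), b.1.1 ≤ a.1.1 / 2 ∧
      C ⊆ S ∩ closedBall s a.1.1 ∧ IsCompact C ∧ IsPreconnected C ∧ a.1.2 ∈ C ∧ b.1.2 ∈ C := by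
    rintro ⟨⟨r, p⟩, a1, a2, a3⟩
    have := ne p a2
    have m1 := min_le_left r (dist p s)
    have m2 := min_le_right r (dist p s)
    have m3 : 0 < min r (dist p s) / 2 := half_pos (lt_min a1 this)
    obtain ⟨q, q1, q2, -⟩ := raystep hN a3 m3 (by linarith)
    obtain ⟨C, hC⟩ := id q1
    refine ⟨⟨⟨min r (dist p s) / 2, q⟩, m3, cp_trans a2 (cp_mono inter_subset_left _ q1),
      closure_mono (cp_mono (inter_subset_inter_left _ inter_subset_left) _) q2⟩, C, ?_, hC⟩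
    show min r (dist p s) / 2 ≤ r / 2
    linarith
  choose g C g1 g2 g3 g4 g5 g6 using step
  have x0 := ne x (cp_self hx)
  obtain ⟨p, p1, p2, -⟩ := raystep hN hs (half_pos x0) (by linarith)
  let F : ℕ → {a // Q a} := fun n => Nat.rec ⟨⟨_, p⟩, half_pos x0, p1, p2⟩ (fun _ a => g a) n
  have hF : ∀ n, (F n).1.1 ≤ dist x s * (1 / 2) ^ n := fun n => by
    induction n with
    | zero => show dist x s / 2 ≤ _; rw [pow_zero]; linarith
    | succ n ih =>
      have := g1 (F n)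
      show (g (F n)).1.1 ≤ _
      rw [pow_succ]
      linarith
  have ev : ∀ δ > 0, ∀ᶠ n in atTop, C (F n) ⊆ closedBall s δ := fun δ hδ => by
    have := (tendsto_pow_atTop_nhds_zero_of_lt_one (r := (1 / 2 : ℝ)) (by norm_num)
      (by norm_num)).const_mul (dist x s)
    rw [mul_zero] at this
    filter_upwards [this.eventually (ge_mem_nhds hδ)] with n hn z hz
    exact closedBall_subset_closedBall ((hF n).trans hn) (g2 _ hz).2
  have hc : IsClosed ({s} ∪ ⋃ n, C (F n)) := nullc isClosed_singleton (fun n => (g3 _).isClosed)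
    fun δ hδ => by
      have := ev δ hδ
      rw [← Nat.cofinite_eq_atTop, eventually_cofinite] at this
      rwa [cthickening_singleton _ hδ.le]
  have hp : IsPreconnected (⋃ n, C (F n)) :=
    IsPreconnected.iUnion_of_chain (fun n => g4 _) fun n => ⟨_, g6 (F n), g5 (F (n + 1))⟩
  refine hn (cp_trans p1 ⟨_, union_subset (singleton_subset_iff.2 h1)
    (iUnion_subset fun n z hz => (g2 _ hz).1), hc.isCompact,
    hp.subset_closure subset_union_right (union_subset (singleton_subset_iff.2 ?_) subset_closure),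
    Or.inr (mem_iUnion.2 ⟨0, g5 (F 0)⟩), Or.inl rfl⟩)
  refine Metric.mem_closure_iff.2 fun ε hε => ?_
  obtain ⟨n, k⟩ := (ev _ (half_pos hε)).exists
  exact ⟨_, mem_iUnion.2 ⟨n, g5 (F n)⟩,
    (mem_closedBall'.1 (k (g5 (F n)))).trans_lt (half_lt_self hε)⟩

def Rl {ι : Type} (K : ι → Set X) (a b : X) : Prop := a = b ∨ ∃ n, a ∈ K n ∧ b ∈ K n

def Em {ι : Type} (K : ι → Set X) (H : Set X) (h : X → ℝ) : Prop :=
  IsClosed H ∧ ContinuousOn h H ∧ (∀ a ∈ H, ∀ b, Rl K a b → b ∈ H) ∧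
    ∀ a ∈ H, ∀ b ∈ H, (h a = h b ↔ Rl K a b)

def PB (X : Type) [MetricSpace X] : Prop :=
  ∀ (Y : Type) [TopologicalSpace Y] [T2Space Y] (f : X → Y),
    Continuous f → Function.Surjective f → (∀ y : Y, IsConnected (f ⁻¹' {y})) →
    ∃ (Z : Type) (_ : MetricSpace Z), CompactSpace Z ∧ ConnectedSpace Z ∧
      ∃ g : Y → Z, Topology.IsEmbedding g ∧
        ∃ A : ℕ → Set Z, (∀ n : ℕ, Nonempty (↥(A n) ≃ₜ unitInterval)) ∧ (⋃ n, A n) = Set.univ

lemma quot [CompactSpace X] (hN : Nul X) (hB : PB X) {ι : Type} {K : ι → Set X}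
    (k1 : ∀ n, IsClosed (K n)) (k2 : ∀ n, IsPreconnected (K n))
    (k3 : Pairwise fun i j => Disjoint (K i) (K j)) :
    ∃ (H : ℕ → Set X) (h : ℕ → X → ℝ), (∀ k, Em K (H k) (h k)) ∧ ⋃ k, H k = univ := by
  classical
  have un : ∀ {a i j}, a ∈ K i → a ∈ K j → i = j := fun h1 h2 =>
    by_contra fun e => disjoint_left.1 (k3 e) h1 h2
  let s : Setoid X := ⟨Rl K, fun _ => Or.inl rfl,
    fun h => h.imp Eq.symm fun ⟨n, a, b⟩ => ⟨n, b, a⟩, by
      rintro a b c (rfl | ⟨n, h1, h2⟩) h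
      · exact h
      rcases h with rfl | ⟨m, h3, h4⟩
      · exact Or.inr ⟨n, h1, h2⟩
      · exact Or.inr ⟨n, h1, un h3 h2 ▸ h4⟩⟩
  let f : X → Quotient s := Quotient.mk s
  have fe : ∀ {a b}, f a = f b ↔ Rl K a b := Quotient.eq
  have fq : IsQuotientMap f := isQuotientMap_quotient_mk'
  have cl : IsClosedMap f := fun C hC => by
    rw [← fq.isClosed_preimage]
    have := nullc' hN (E := fun n : {n // (K n ∩ C).Nonempty} => K n) hC (fun n => k1 n)
      (fun n => k2 n) (fun i j e => k3 fun l => e (Subtype.ext l)) fun n _ => n.2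
    have e : C ∪ ⋃ n : {n // (K n ∩ C).Nonempty}, K n = f ⁻¹' (f '' C) := ?_
    · rwa [e] at this
    refine Subset.antisymm ?_ ?_
    · rintro z (hz | hz)
      · exact ⟨z, hz, rfl⟩
      · obtain ⟨⟨n, w, w1, w2⟩, hn⟩ := mem_iUnion.1 hz
        exact ⟨w, w2, fe.2 (Or.inr ⟨n, w1, hn⟩)⟩
    · rintro z ⟨w, w1, w2⟩
      rcases fe.1 w2 with rfl | ⟨n, h1, h2⟩
      · exact Or.inl w1
      · exact Or.inr (mem_iUnion.2 ⟨⟨n, w, h1, w1⟩, h2⟩)
  have fib : ∀ a, f ⁻¹' {f a} = {a} ∨ ∃ n, f ⁻¹' {f a} = K n := fun a => by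
    by_cases h : ∃ n, a ∈ K n
    · obtain ⟨n, hn⟩ := h
      refine Or.inr ⟨n, Subset.antisymm (fun z hz => ?_) fun z hz => fe.2 (Or.inr ⟨n, hz, hn⟩)⟩
      rcases fe.1 hz with rfl | ⟨m, h1, h2⟩
      · exact hn
      · exact un h2 hn ▸ h1
    · refine Or.inl (Subset.antisymm (fun z hz => ?_) (singleton_subset_iff.2 rfl))
      rcases fe.1 hz with rfl | ⟨m, -, h2⟩
      · rfl
      · exact absurd ⟨m, h2⟩ h
  have fc : ∀ y, IsClosed (f ⁻¹' {y}) ∧ IsConnected (f ⁻¹' {y}) := fun y => by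
    obtain ⟨a, rfl⟩ := fq.surjective y
    refine ⟨?_, ⟨a, rfl⟩, ?_⟩
    · rcases fib a with e | ⟨n, e⟩ <;> rw [e]
      exacts [isClosed_singleton, k1 n]
    · rcases fib a with e | ⟨n, e⟩ <;> rw [e]
      exacts [isPreconnected_singleton, k2 n]
  have t2 : T2Space (Quotient s) := ⟨fun y z e => by
    obtain ⟨u, v, hu, hv, u1, v1, huv⟩ := normal_separation (fc y).1 (fc z).1
      ((disjoint_singleton.2 e).preimage f)
    refine ⟨(f '' uᶜ)ᶜ, (f '' vᶜ)ᶜ, (cl _ hu.isClosed_compl).isOpen_compl,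
      (cl _ hv.isClosed_compl).isOpen_compl, fun ⟨w, w1, w2⟩ => w1 (u1 w2),
      fun ⟨w, w1, w2⟩ => w1 (v1 w2), disjoint_left.2 fun w w1 w2 => ?_⟩
    obtain ⟨a, rfl⟩ := fq.surjective w
    exact disjoint_left.1 huv (not_not.1 fun l => w1 ⟨a, l, rfl⟩) (not_not.1 fun l => w2 ⟨a, l, rfl⟩)⟩
  obtain ⟨Z, _, -, -, g, hg, A, hA, hU⟩ := hB (Quotient s) f fq.continuous fq.surjective
    fun y => (fc y).2
  have φ := fun n => (hA n).some
  have gc := hg.continuous.comp fq.continuous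
  refine ⟨fun k => (g ∘ f) ⁻¹' A k, fun k a => if h : g (f a) ∈ A k then (φ k ⟨_, h⟩ : ℝ) else 0,
    fun k => ⟨?_, ?_, fun a ha b h => ?_, fun a ha b hb => ?_⟩, by
      rw [← preimage_iUnion, hU, preimage_univ]⟩
  · exact (isCompact_iff_compactSpace.2 (φ k).symm.compactSpace).isClosed.preimage gc
  · rw [continuousOn_iff_continuous_restrict]
    refine (continuous_subtype_val.comp ((φ k).continuous.comp
      ((gc.comp continuous_subtype_val).subtype_mk fun a => a.2))).congr fun a => ?_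
    show _ = if h : g (f a) ∈ A k then (φ k ⟨_, h⟩ : ℝ) else 0
    rw [dif_pos (show g (f a) ∈ A k from a.2)]
    rfl
  · show g (f b) ∈ A k
    rw [← fe.2 h]
    exact ha
  · dsimp only
    rw [← fe, dif_pos (show g (f a) ∈ A k from ha), dif_pos (show g (f b) ∈ A k from hb),
      Subtype.val_inj, (φ k).injective.eq_iff, Subtype.mk.injEq, hg.injective.eq_iff]

end Pool.Agent.H.MP_dd0f47_gt
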