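import Mathlib
import Pool.Agent.H.MP_dd0f47_gt.C
import Pool.Agent.H.MP_a3a891_gt.A

set_option autoImplicit false
open Set Metric Topology Filter

namespace Pool.Agent.H.MP_dd0f47_gt

open Pool.Agent.H.MP_77b145_gt

variable {X : Type} [MetricSpace X]

lemma mono {T : Set X} (hT : IsCompact T) (hc : IsPreconnected T) {u v : X → ℝ}
    (hu : ContinuousOn u T) (hv : ContinuousOn v T) {x y a : X} (hx : x ∈ T) (hy : y ∈ T)
    (ha : a ∈ T) (h1 : u a ∈ uIcc (u x) (u y)) (h2 : ∀ s ∈ T, ∀ t ∈ T, u s = u t → v s = v t)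
    (h3 : ∀ t ∈ T, u t = u a → t = a) {Cn : Set ℝ} (hC : Cn.Countable)
    (h4 : ∀ s ∈ T, ∀ t ∈ T, v s = v t → s = t ∨ v s ∈ Cn) : v a ∈ uIcc (v x) (v y) := by
  have key : ∀ z ∈ T, uIcc (v z) (v a) ⊆ v '' (T ∩ u ⁻¹' uIcc (u z) (u a)) := fun z hz => by
    have e : u '' (T ∩ u ⁻¹' uIcc (u z) (u a)) = uIcc (u z) (u a) := by
      rw [image_inter_preimage, inter_eq_right]
      exact (hc.image u hu).ordConnected.uIcc_subset ⟨z, hz, rfl⟩ ⟨a, ha, rfl⟩
    refine (fac (hT.of_isClosed_subset (hu.preimage_isClosed_of_isClosed hT.isClosed isClosed_Icc)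
      inter_subset_left) (hu.mono inter_subset_left) (hv.mono inter_subset_left)
      (e.symm ▸ isPreconnected_uIcc) fun s hs t ht => h2 s hs.1 t ht.1).ordConnected.uIcc_subset
      ⟨z, ⟨hz, left_mem_uIcc⟩, rfl⟩ ⟨a, ⟨ha, right_mem_uIcc⟩, rfl⟩
  by_contra k
  obtain ⟨w, w1, w2, w3, w4⟩ : ∃ w, w ∉ Cn ∧ w ≠ v a ∧ w ∈ uIcc (v x) (v a) ∧
      w ∈ uIcc (v y) (v a) := by
    rw [uIcc, mem_Icc, not_and_or, not_le, not_le] at k
    rcases k with k | k
    · obtain ⟨w, w1, w2⟩ := (hC.dense_compl ℝ).exists_mem_open isOpen_Ioo (nonempty_Ioo.2 k)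
      exact ⟨w, w1, w2.1.ne', mem_uIcc_of_ge w2.1.le (w2.2.le.trans (min_le_left _ _)),
        mem_uIcc_of_ge w2.1.le (w2.2.le.trans (min_le_right _ _))⟩
    · obtain ⟨w, w1, w2⟩ := (hC.dense_compl ℝ).exists_mem_open isOpen_Ioo (nonempty_Ioo.2 k)
      exact ⟨w, w1, w2.2.ne, mem_uIcc_of_le ((le_max_left _ _).trans w2.1.le) w2.2.le,
        mem_uIcc_of_le ((le_max_right _ _).trans w2.1.le) w2.2.le⟩
  obtain ⟨s, s1, s2⟩ := key x hx w3
  obtain ⟨t, t1, t2⟩ := key y hy w4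
  rcases h4 s s1.1 t t1.1 (s2.trans t2.symm) with rfl | l
  · refine w2 (s2 ▸ congrArg v (h3 s s1.1 ?_))
    have a1 := mem_uIcc.1 s1.2
    have a2 := mem_uIcc.1 t1.2
    have a3 := mem_uIcc.1 h1
    rcases a1 with a1 | a1 <;> rcases a2 with a2 | a2 <;> rcases a3 with a3 | a3 <;>
      linarith [a1.1, a1.2, a2.1, a2.2, a3.1, a3.2]
  · exact w1 (s2 ▸ l)

lemma fin2 (hN : Nul X) {H M : Set X} (hH : IsClosed H) {h : X → ℝ} (hh : ContinuousOn h H)
    (hM : M ⊆ H) (hW : ∀ a ∈ M, ∀ b ∈ M, IsPreconnected (H ∩ h ⁻¹' uIcc (h a) (h b))) {c : ℝ}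
    (hc : ∀ a ∈ M, h a < c) {p q : X} (hp : p ∈ closure M) (hq : q ∈ closure M) (p1 : h p = c)
    (q1 : h q = c) : p = q := by
  by_contra k
  have d0 : 0 < dist p q / 3 := by have := dist_pos.2 k; linarith
  have near : ∀ z ∈ closure M, h z = c → ∀ s < c, ∃ a ∈ M, s < h a ∧ dist a z < dist p q / 3 := by
    intro z hz e s hs
    have h1 : ∀ᶠ a in 𝓝[M] z, s < h a :=
      ((hh z (closure_minimal hM hH hz)).mono hM).eventually (Ioi_mem_nhds (e ▸ hs))
    have := mem_closure_iff_nhdsWithin_neBot.1 hz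
    obtain ⟨a, a1, a2, a3⟩ := (h1.and ((eventually_mem_nhdsWithin (s := M) (a := z)).and
      (nhdsWithin_le_nhds (ball_mem_nhds z d0)))).exists
    exact ⟨a, a2, a1, a3⟩
  have step : ∀ s : {s // s < c}, ∃ (t : {s // s < c}) (C : Set X), s.1 ≤ t.1 ∧
      C ⊆ {z | s.1 < h z} ∧ Disjoint C {z | t.1 < h z} ∧ IsPreconnected C ∧
      Big (dist p q / 3) C := by
    rintro ⟨s, hs⟩
    obtain ⟨a, a1, a2, a3⟩ := near p hp p1 s hs
    obtain ⟨b, b1, b2, b3⟩ := near q hq q1 s hs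
    refine ⟨⟨max (h a) (h b), max_lt (hc a a1) (hc b b1)⟩, _, a2.le.trans (le_max_left _ _),
      fun z hz => (lt_min a2 b2).trans_le hz.2.1, disjoint_left.2 fun z hz l => not_le.2 l hz.2.2,
      hW a a1 b b1, a, ⟨hM a1, left_mem_uIcc⟩, b, ⟨hM b1, right_mem_uIcc⟩, ?_⟩
    have := dist_triangle4_left a b p q
    linarith
  choose g C g1 g2 g3 g4 g5 using step
  let F : ℕ → {s // s < c} := fun n => Nat.rec ⟨c - 1, sub_one_lt c⟩ (fun _ s => g s) n
  exact hN.nest d0 (fun n => {z | (F n).1 < h z}) (fun n => C (F n))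
    (fun n z hz => (g1 (F n)).trans_lt hz) (fun n => g2 _) (fun n => g3 _) (fun n => g4 _)
    fun n => g5 _

lemma absorb [CompactSpace X] {ι : Type} [Countable ι] {K : ι → Set X} (k1 : ∀ n, IsClosed (K n))
    (k3 : Pairwise fun i j => Disjoint (K i) (K j)) {H T : Set X} (hH : IsClosed H)
    (hs : ∀ a ∈ H, ∀ b, Rl K a b → b ∈ H) (t1 : IsClosed T) (t2 : IsPreconnected T) {x y : X}
    (hx : x ∈ T) (hy : y ∈ T) (hxy : ¬ Rl K x y) (h : ∀ z ∈ T, (∀ n, z ∉ K n) → z ∈ H) :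
    T ⊆ H := by
  classical
  let f : Option ι → Set X := fun o => o.elim H fun n => if (K n ∩ H).Nonempty then H else K n
  have fc : ∀ o, f o = H ∨ ∃ n, f o = K n ∧ ¬ (K n ∩ H).Nonempty := by
    rintro (_ | n)
    · exact Or.inl rfl
    · by_cases l : (K n ∩ H).Nonempty
      · exact Or.inl (if_pos l)
      · exact Or.inr ⟨n, if_neg l, l⟩
  obtain ⟨o, ho⟩ := MP_a3a891_gt.sier t1 t2 f (fun o => by
      rcases fc o with e | ⟨n, e, -⟩ <;> rw [e]
      exacts [hH, k1 n])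
    (fun i j l => by
      rcases fc i with e | ⟨n, e, a⟩ <;> rcases fc j with e' | ⟨m, e', b⟩ <;> rw [e, e'] at l ⊢
      · exact absurd (inter_comm _ _ ▸ l) b
      · exact absurd l a
      · by_contra k
        exact l.not_disjoint (k3 fun q => k (q ▸ rfl)))
    (fun z hz => by
      by_cases l : z ∈ H
      · exact mem_iUnion.2 ⟨none, l⟩
      obtain ⟨n, hn⟩ : ∃ n, z ∈ K n := by
        by_contra k
        exact l (h z hz fun n hn => k ⟨n, hn⟩)
      refine mem_iUnion.2 ⟨some n, ?_⟩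
      show z ∈ if (K n ∩ H).Nonempty then H else K n
      rwa [if_neg fun ⟨w, w1, w2⟩ => l (hs w w2 z (Or.inr ⟨n, w1, hn⟩))])
  rcases fc o with e | ⟨n, e, -⟩ <;> rw [e] at ho
  · exact ho
  · exact absurd (Or.inr ⟨n, ho hx, ho hy⟩) hxy

structure Sys (S : Set X) {ι : Type} (P : ι → Set X) (K : ι → ℕ → Set X) : Prop where
  p1 : ∀ a, ∃ x ∈ S, P a = cp S x
  p2 : ∀ x ∈ S, (cp S x).Nontrivial → ∃ a, P a = cp S x
  p3 : Pairwise fun a b => Disjoint (P a) (P b)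
  k1 : ∀ a i, IsClosed (K a i)
  k2 : ∀ a i, IsPreconnected (K a i)
  k3 : ∀ j : ι → ℕ, Pairwise fun a b => Disjoint (K a (j a)) (K b (j b))
  k4 : ∀ a i, K a i ⊆ closure (P a)
  k5 : ∀ a, Monotone (K a)
  k6 : ∀ T, IsClosed T → (∀ a b, a ≠ b → Disjoint T (closure (P a) ∩ closure (P b))) →
    ∀ a, ∃ i, T ∩ closure (P a) ⊆ K a i

variable [CompactSpace X]

lemma exists_sys [ConnectedSpace X] (hN : Nul X) (S : Set X) :
    ∃ (ι : Type) (_ : Countable ι) (P : ι → Set X) (K : ι → ℕ → Set X), Sys S P K := by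
  let R : Set (Set X) := {A | A.Nontrivial ∧ ∃ x ∈ S, A = cp S x}
  have d := cp_disj S R fun A hA => hA.2.imp fun _ h => h.2
  choose p p1 p2 using fun a : R => a.2.2
  have pre : ∀ a : R, IsPreconnected a.1 := fun a => p2 a ▸ cp_pre _ _
  have : Countable R := by
    refine countable_univ_iff.1 ((countable_iUnion fun m : ℕ =>
      (finι hN pre d (δ := 1 / ((m : ℝ) + 1)) Nat.one_div_pos_of_nat).countable).mono fun a _ => ?_)
    obtain ⟨u, hu, v, hv, k⟩ := a.2.1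
    obtain ⟨m, hm⟩ := exists_nat_one_div_lt (dist_pos.2 k)
    exact mem_iUnion.2 ⟨m, u, hu, v, hv, hm.le⟩
  obtain ⟨e, he⟩ := exists_injective_nat R
  let Z : R → Set X := fun a => ⋃ b ∈ {b | e b < e a}, closure b.1
  have z1 : ∀ a, IsClosed (Z a) := fun a =>
    ((finite_lt_nat (e a)).preimage he.injOn).isClosed_biUnion fun _ _ => isClosed_closure
  have z2 : ∀ a : R, a.1 ⊆ closure a.1 \ Z a := fun a z hz => ⟨subset_closure hz, fun k => by
    obtain ⟨b, b1, b2⟩ := mem_iUnion₂.1 k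
    rw [p2 b] at b2
    have := ray hN (cp_sub (p2 a ▸ hz)) b2
    rw [← p2 b] at this
    exact disjoint_left.1 (d fun l : a = b => (show e b < e a from b1).ne (l ▸ rfl)) hz this⟩
  have z3 : ∀ a i, ex (closure a.1 \ Z a) (Z a) (p a) i ⊆ closure a.1 \ Z a := fun a i z hz =>
    (connectedComponentIn_subset _ _ hz).1
  refine ⟨R, this, fun a => a.1, fun a => ex (closure a.1 \ Z a) (Z a) (p a),
    fun a => ⟨p a, p1 a, p2 a⟩, fun x hx h => ⟨⟨_, h, x, hx, rfl⟩, rfl⟩, d, fun a i => ?_,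
    fun a i => isPreconnected_connectedComponentIn, fun j a b k => ?_,
    fun a i z hz => (z3 a i hz).1, fun a => ex_mono _ _ _, fun T t1 t2 a => ?_⟩
  · refine cc_closed ?_ _
    rw [diff_diff, union_eq_self_of_subset_left (self_subset_thickening Nat.one_div_pos_of_nat _)]
    exact isClosed_closure.sdiff isOpen_thickening
  · refine disjoint_left.2 fun z h1 h2 => ?_
    rcases lt_or_gt_of_ne (he.ne k) with l | l
    · exact (z3 _ _ h2).2 (mem_biUnion (t := fun b : R => closure b.1) l (z3 _ _ h1).1)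
    · exact (z3 _ _ h1).2 (mem_biUnion (t := fun b : R => closure b.1) l (z3 _ _ h2).1)
  · refine exh hN ((pre a).subset_closure (z2 a) diff_subset) (z1 a) disjoint_sdiff_left
      (z2 a (p2 a ▸ cp_self (p1 a))) (t1.inter isClosed_closure).isCompact fun z hz =>
      ⟨hz.2, fun k => ?_⟩
    obtain ⟨b, b1, b2⟩ := mem_iUnion₂.1 k
    exact disjoint_left.1 (t2 a b fun l => (show e b < e a from b1).ne (l ▸ rfl)) hz.1 ⟨hz.2, b2⟩

variable {S : Set X} {ι : Type} {P : ι → Set X} {K : ι → ℕ → Set X}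

lemma Sys.cl (h : Sys S P K) (hN : Nul X) {a : ι} {z : X} (h1 : z ∈ S) (h2 : z ∈ closure (P a)) :
    z ∈ P a := by
  obtain ⟨x, -, e⟩ := h.p1 a
  rw [e] at h2 ⊢
  exact ray hN h1 h2

lemma Sys.nr (h : Sys S P K) (hN : Nul X) (j : ι → ℕ) {x y : X} (hx : x ∈ S) (hy : y ∈ S)
    (k : y ∉ cp S x) : ¬ Rl (fun a => K a (j a)) x y := by
  rintro (rfl | ⟨a, h1, h2⟩)
  · exact k (cp_self hx)
  have h3 := h.cl hN hx (h.k4 _ _ h1)
  have h4 := h.cl hN hy (h.k4 _ _ h2)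
  obtain ⟨w, -, e⟩ := h.p1 a
  rw [e] at h3 h4
  exact k (cp_trans (cp_symm h3) h4)

lemma Sys.gT [ConnectedSpace X] [Countable ι] (h : Sys S P K) (hN : Nul X) {D Z : Set X}
    (hD : IsPreconnected D) (hS : D ⊆ S) {x y : X} (hx : x ∈ D) (hy : y ∈ D) (hZ : IsClosed Z)
    (hd : Disjoint S Z) : ∃ T, IsClosed T ∧ IsPreconnected T ∧ T ⊆ closure D ∧ x ∈ T ∧ y ∈ T ∧
      Disjoint T Z ∧ ∃ f : ι → ℕ, ∀ a, T ∩ closure (P a) ⊆ K a (f a) := by
  obtain ⟨T, t1, t2, t3, t4, t5, t6⟩ := getT hN (κ := Option {q : ι × ι // q.1 ≠ q.2}) hD hx hy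
    (Z := fun o => o.elim Z fun q => closure (P q.1.1) ∩ closure (P q.1.2))
    (by
      rintro (_ | q)
      exacts [hZ, isClosed_closure.inter isClosed_closure])
    (by
      rintro (_ | q)
      · exact hd.mono_left hS
      · exact disjoint_left.2 fun z hz l => disjoint_left.1 (h.p3 q.2) (h.cl hN (hS hz) l.1)
          (h.cl hN (hS hz) l.2))
  choose f hf using h.k6 T t1 fun a b k => t6 (some ⟨(a, b), k⟩)
  exact ⟨T, t1, t2, t3, t4, t5, t6 none, f, hf⟩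

end Pool.Agent.H.MP_dd0f47_gt
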