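import Mathlib
import Pool.Agent.H.MP_dd0f47_gt.A
import Pool.Agent.H.MP_dd0f47_gt.D

set_option autoImplicit false
open Set Metric Topology Filter

namespace Pool.Agent.H.MP_dd0f47_gt

open Pool.Agent.H.MP_77b145_gt

variable {X : Type} [MetricSpace X] [CompactSpace X] [ConnectedSpace X]
  {S : Set X} {ι : Type} [Countable ι] {P : ι → Set X} {K : ι → ℕ → Set X}

omit [ConnectedSpace X] [CompactSpace X] in
lemma cnt {L : ι → Set X} {H : Set X} {h : X → ℝ} (hE : Em L H h) :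
    (⋃ n, h '' (H ∩ L n)).Countable := countable_iUnion fun n => Set.Subsingleton.countable (by
  rintro _ ⟨a, ha, rfl⟩ _ ⟨b, hb, rfl⟩
  exact (hE.2.2.2 a ha.1 b hb.1).2 (Or.inr ⟨n, ha.2, hb.2⟩))

omit [ConnectedSpace X] in
/-- the final contradiction -/
lemma Sys.fin (h : Sys S P K) (hN : Nul X) {j : ι → ℕ} {H T : Set X} {u : X → ℝ}
    (hE : Em (fun a => K a (j a)) H u) (t1 : IsClosed T) (t2 : IsPreconnected T) (t3 : T ⊆ H)
    (t4 : ∀ a, T ∩ closure (P a) ⊆ K a (j a)) {x y : X} (hx : x ∈ T) (hy : y ∈ T)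
    (hxy : u x ≠ u y)
    (hM : closure {a ∈ T | (∀ n, a ∉ closure (P n)) ∧ u a ∈ uIcc (u x) (u y)} ⊆ S) : False := by
  obtain ⟨e1, e2, e3, e4⟩ := id hE
  set M := {a ∈ T | (∀ n, a ∉ closure (P n)) ∧ u a ∈ uIcc (u x) (u y)} with hMe
  have q1 : closure M ⊆ T := closure_minimal (fun a ha => ha.1) t1
  have qc : IsCompact (closure M) := isClosed_closure.isCompact
  have uc := e2.mono (q1.trans t3)
  have hI : uIcc (u x) (u y) ⊆ u '' T :=
    (t2.image u (e2.mono t3)).ordConnected.uIcc_subset ⟨x, hx, rfl⟩ ⟨y, hy, rfl⟩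
  have q2 : u '' closure M = uIcc (u x) (u y) := by
    refine Subset.antisymm ?_ ?_
    · exact image_subset_iff.2 fun z hz => (closure_minimal (t := T ∩ u ⁻¹' uIcc (u x) (u y))
        (fun a ha => ⟨ha.1, ha.2.2⟩)
        ((e2.mono t3).preimage_isClosed_of_isClosed t1 isClosed_Icc) hz).2
    · rw [uIcc, ← closure_Ioo (min_lt_max.2 hxy).ne]
      refine closure_minimal (((cnt hE).dense_compl ℝ).open_subset_closure_inter isOpen_Ioo |>.trans
        (closure_minimal ?_ (qc.image_of_continuousOn uc).isClosed))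
        (qc.image_of_continuousOn uc).isClosed
      rintro w ⟨w1, w2⟩
      obtain ⟨a, ha, rfl⟩ := hI (Ioo_subset_Icc_self w1)
      exact ⟨a, subset_closure ⟨ha, fun n hn => w2 (mem_iUnion.2 ⟨n, a, ⟨t3 ha, t4 n ⟨ha, hn⟩⟩, rfl⟩),
        Ioo_subset_Icc_self w1⟩, rfl⟩
  have hW : ∀ a ∈ M, ∀ b ∈ M, IsPreconnected (H ∩ u ⁻¹' uIcc (u a) (u b)) := by
    intro a ha b hb
    refine conL (e2.preimage_isClosed_of_isClosed e1 isClosed_Icc).isCompact
      (e2.mono inter_subset_left) ?_ subset_rfl (fun s hs t ht e => ?_)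
      fun s hs => ⟨s, hs, {s}, singleton_subset_iff.2 hs, isPreconnected_singleton, rfl, rfl⟩
    · rw [image_inter_preimage, inter_eq_right.2]
      · exact isPreconnected_uIcc
      · exact (uIcc_subset_uIcc ha.2.2 hb.2.2).trans (hI.trans (image_mono t3))
    · rcases (e4 s hs.1 t ht.1).1 e with rfl | ⟨n, h1, h2⟩
      · exact ⟨{s}, singleton_subset_iff.2 hs, isPreconnected_singleton, rfl, rfl⟩
      · refine ⟨_, fun z hz => ?_, h.k2 n (j n), h1, h2⟩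
        have r : Rl (fun a => K a (j a)) s z := Or.inr ⟨n, h1, hz⟩
        exact ⟨e3 s hs.1 z r, mem_preimage.2 ((e4 s hs.1 z (e3 s hs.1 z r)).2 r ▸ hs.2)⟩
  have fin : ∀ n, (closure M ∩ closure (P n)).Finite := by
    intro n
    rcases (closure M ∩ closure (P n)).eq_empty_or_nonempty with e | ⟨z, hz⟩
    · rw [e]; exact finite_empty
    have c1 : ∀ w ∈ closure M ∩ closure (P n), u w = u z := fun w hw =>
      (e4 w (t3 (q1 hw.1)) z (t3 (q1 hz.1))).2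
        (Or.inr ⟨n, t4 n ⟨q1 hw.1, hw.2⟩, t4 n ⟨q1 hz.1, hz.2⟩⟩)
    have c2 : M ⊆ {a ∈ M | u a < u z} ∪ {a ∈ M | -u a < -u z} := fun a ha => by
      rcases lt_trichotomy (u a) (u z) with k | k | k
      · exact Or.inl ⟨ha, k⟩
      · rcases (e4 a (t3 ha.1) z (t3 (q1 hz.1))).1 k with rfl | ⟨m, h1, -⟩
        · exact absurd hz.2 (ha.2.1 n)
        · exact absurd (h.k4 _ _ h1) (ha.2.1 m)
      · exact Or.inr ⟨ha, neg_lt_neg k⟩
    have c3 := closure_mono c2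
    rw [closure_union] at c3
    refine (Set.Subsingleton.finite (s := closure {a ∈ M | u a < u z} ∩ {w | u w = u z})
      (fun p hp q hq => fin2 hN e1 e2 (fun a ha => t3 ha.1.1) (fun a ha b hb => hW a ha.1 b hb.1)
        (fun a ha => ha.2) hp.1 hq.1 hp.2 hq.2)).union
      (Set.Subsingleton.finite (s := closure {a ∈ M | -u a < -u z} ∩ {w | u w = u z})
        fun p hp q hq => fin2 hN e1 e2.neg (fun a ha => t3 ha.1.1) (fun a ha b hb => ?_)
        (fun a ha => ha.2) hp.1 hq.1 (congrArg Neg.neg hp.2) (congrArg Neg.neg hq.2)) |>.subset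
      fun w hw => (c3 hw.1).imp (fun l => ⟨l, c1 w hw⟩) fun l => ⟨l, c1 w hw⟩
    have e : (fun x => -u x) ⁻¹' uIcc (-u a) (-u b) = u ⁻¹' uIcc (u a) (u b) := by
      ext w
      simp only [mem_preimage, mem_uIcc, neg_le_neg_iff]
      tauto
    exact e ▸ hW a ha.1 b hb.1
  have hE' : ∀ n : {n // (closure M ∩ closure (P n)).Nonempty}, ∃ C ⊆ P n, IsCompact C ∧
      IsPreconnected C ∧ closure M ∩ closure (P n) ⊆ C := fun n => by
    obtain ⟨w, w1, w2⟩ := h.p1 n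
    obtain ⟨C, c1, c2, c3, -, c4⟩ := cp_fin w1 (fin n) fun z hz => w2 ▸ h.cl hN (hM hz.1) hz.2
    exact ⟨C, w2 ▸ c1, c2, c3, c4⟩
  choose E c1 c2 c3 c4 using hE'
  have ps : ∀ n, P n ⊆ S := fun n => by
    obtain ⟨w, -, w2⟩ := h.p1 n
    exact w2 ▸ cp_sub
  have ec : IsClosed (closure M ∪ ⋃ n, E n) := nullc' hN isClosed_closure (fun n => (c2 n).isClosed)
    c3 (fun a b k => (h.p3 fun l => k (Subtype.ext l)).mono (c1 a) (c1 b))
    fun n _ => n.2.mono fun z hz => ⟨c4 n hz, hz.1⟩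
  have su : ∀ n, E n ⊆ closure M ∪ ⋃ n, E n := fun n z hz => Or.inr (mem_iUnion.2 ⟨n, hz⟩)
  have ep : IsPreconnected (closure M ∪ ⋃ n, E n) := by
    refine conL qc uc (q2 ▸ isPreconnected_uIcc) subset_union_left (fun s hs t ht e => ?_) ?_
    · rcases (e4 s (t3 (q1 hs)) t (t3 (q1 ht))).1 e with rfl | ⟨n, h1, h2⟩
      · exact ⟨{s}, singleton_subset_iff.2 (Or.inl hs), isPreconnected_singleton, rfl, rfl⟩
      · exact ⟨E ⟨n, s, hs, h.k4 _ _ h1⟩, su _, c3 _, c4 _ ⟨hs, h.k4 _ _ h1⟩,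
          c4 _ ⟨ht, h.k4 _ _ h2⟩⟩
    · rintro s (hs | hs)
      · exact ⟨s, hs, {s}, singleton_subset_iff.2 (Or.inl hs), isPreconnected_singleton, rfl, rfl⟩
      · obtain ⟨n, hn⟩ := mem_iUnion.1 hs
        obtain ⟨z, hz⟩ := n.2
        exact ⟨z, hz.1, E n, su n, c3 n, hn, c4 n hz⟩
  obtain ⟨s, hs, s2⟩ : u x ∈ u '' closure M := q2 ▸ left_mem_uIcc
  obtain ⟨t, ht, t2⟩ : u y ∈ u '' closure M := q2 ▸ right_mem_uIcc
  obtain ⟨a, ha⟩ := closure_nonempty_iff.1 ⟨s, hs⟩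
  have in1 : ∀ z ∈ closure M, z ∈ cp S a := fun z hz => ⟨_, union_subset hM
    (iUnion_subset fun n => (c1 n).trans (ps n)), ec.isCompact, ep, Or.inl (subset_closure ha),
    Or.inl hz⟩
  obtain ⟨n, hn⟩ := h.p2 a (hM (subset_closure ha))
    ⟨s, in1 s hs, t, in1 t ht, fun e => hxy (s2.symm.trans (e ▸ t2))⟩
  exact ha.2.1 n (subset_closure (hn ▸ in1 a (subset_closure ha)))

lemma Sys.loc (h : Sys S P K) (hN : Nul X) (hS : IsPreconnected S) (hn : S.Nontrivial)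
    {O : Set X} (hO : IsOpen O) {w : X} (w1 : w ∈ O) (w2 : w ∈ closure S)
    (w3 : ∀ n, w ∉ closure (P n)) {B : Set ι} (hB : B.Finite) :
    ∃ f : ι → ℕ, ∀ j : ι → ℕ, (∀ a ∉ B, f a ≤ j a) → ∀ H u, Em (fun a => K a (j a)) H u →
      ¬ ∀ z ∈ O, z ∈ closure S → (∀ n, z ∉ closure (P n)) → z ∈ H := by
  by_contra hc
  push Not at hc
  obtain ⟨r, r1, r2⟩ := Metric.nhds_basis_closedBall.mem_iff.1 ((hO.sdiff
    (hB.isClosed_biUnion (f := fun a => closure (P a)) fun _ _ => isClosed_closure)).mem_nhds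
    ⟨w1, fun k => by
      obtain ⟨a, -, ha⟩ := mem_iUnion₂.1 k
      exact w3 a ha⟩)
  obtain ⟨D, d1, d2, d3, d4⟩ := findD hN hS hn w2 r1
  have dS : D ⊆ S := fun z hz => (d1 hz).1
  have d5 : closure D ⊆ O \ ⋃ a ∈ B, closure (P a) :=
    (closure_minimal (fun z hz => ball_subset_closedBall (d1 hz).2) isClosed_closedBall).trans r2
  obtain ⟨x, hx⟩ := d3.nonempty
  obtain ⟨y, hy, hxy⟩ : ∃ y ∈ D, y ∉ cp S x := by
    by_contra k
    push Not at k
    obtain ⟨n, e⟩ := h.p2 x (dS hx) (d3.mono k)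
    exact w3 n (closure_mono (e ▸ k) d4)
  have good : ∀ T ⊆ closure D, ∀ f j : ι → ℕ, (∀ a, T ∩ closure (P a) ⊆ K a (f a)) →
      (∀ a ∉ B, f a ≤ j a) → ∀ a, T ∩ closure (P a) ⊆ K a (j a) := fun T t f j h1 h2 a z hz => by
    by_cases k : a ∈ B
    · exact absurd (mem_biUnion k hz.2) (d5 (t hz.1)).2
    · exact h.k5 a (h2 a k) (h1 a hz)
  have sub : ∀ T (j : ι → ℕ) H u, IsClosed T → IsPreconnected T → T ⊆ closure D → x ∈ T → y ∈ T →
      (∀ a, T ∩ closure (P a) ⊆ K a (j a)) → Em (fun a => K a (j a)) H u →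
      (∀ z ∈ O, z ∈ closure S → (∀ n, z ∉ closure (P n)) → z ∈ H) → T ⊆ H :=
    fun T j H u t1 t2 t3 t4 t5 t6 hE hH => absorb (fun a => h.k1 a _) (h.k3 j) hE.1 hE.2.2.1 t1 t2
      t4 t5 (h.nr hN j (dS hx) (dS hy) hxy) fun z hz k =>
        hH z (d5 (t3 hz)).1 (closure_mono dS (t3 hz)) fun n l => k n (t6 n ⟨hz, l⟩)
  obtain ⟨T, t1, t2, t3, t4, t5, -, f, t6⟩ := h.gT hN d2 dS hx hy isClosed_empty (disjoint_empty _)
  obtain ⟨j, j1, H, u, hE, hH⟩ := hc f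
  have g0 := good T t3 f j t6 j1
  have s0 := sub T j H u t1 t2 t3 t4 t5 g0 hE hH
  refine h.fin hN hE t1 t2 s0 g0 t4 t5 (fun e => h.nr hN j (dS hx) (dS hy) hxy
    ((hE.2.2.2 x (s0 t4) y (s0 t5)).1 e)) fun z hz => ?_
  by_contra k
  obtain ⟨T', a1, a2, a3, a4, a5, a6, f', a7⟩ := h.gT hN d2 dS hx hy isClosed_singleton
    (disjoint_singleton_right.2 k)
  obtain ⟨j', j2, H', v, hE', hH'⟩ := hc fun a => max (f a) (f' a)
  have g1 := good T t3 f j' t6 fun a ha => (le_max_left _ _).trans (j2 a ha)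
  have g2 := good T' a3 f' j' a7 fun a ha => (le_max_right _ _).trans (j2 a ha)
  have s1 := sub T j' H' v t1 t2 t3 t4 t5 g1 hE' hH'
  have s2 := sub T' j' H' v a1 a2 a3 a4 a5 g2 hE' hH'
  refine disjoint_left.1 a6 (closure_minimal (fun a ha => ?_) a1 hz) rfl
  have := mono t1.isCompact t2 (hE.2.1.mono s0) (hE'.2.1.mono s1) t4 t5 ha.1 ha.2.2
    (fun s hs t ht e => (hE'.2.2.2 s (s1 hs) t (s1 ht)).2
      (((hE.2.2.2 s (s0 hs) t (s0 ht)).1 e).imp_right fun ⟨n, h1, h2⟩ =>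
        ⟨n, g1 n ⟨hs, h.k4 _ _ h1⟩, g1 n ⟨ht, h.k4 _ _ h2⟩⟩))
    (fun t ht e => ((hE.2.2.2 t (s0 ht) a (s0 ha.1)).1 e).resolve_right
      fun ⟨n, _, h2⟩ => ha.2.1 n (h.k4 _ _ h2)) (cnt hE')
    fun s hs t ht e => ((hE'.2.2.2 s (s1 hs) t (s1 ht)).1 e).imp_right fun ⟨n, h1, _⟩ =>
      mem_iUnion.2 ⟨n, s, ⟨s1 hs, h1⟩, rfl⟩
  obtain ⟨t, ht, e⟩ := (a2.image v (hE'.2.1.mono s2)).ordConnected.uIcc_subset ⟨x, a4, rfl⟩
    ⟨y, a5, rfl⟩ this
  rcases (hE'.2.2.2 t (s2 ht) a (s1 ha.1)).1 e with rfl | ⟨n, -, h2⟩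
  · exact ht
  · exact absurd (h.k4 _ _ h2) (ha.2.1 n)

theorem conn (hN : Nul X) (hB : PB X) (hS : IsPreconnected S) {x y : X} (hx : x ∈ S)
    (hy : y ∈ S) : y ∈ cp S x := by
  by_contra k
  obtain ⟨ι, _, P, K, h⟩ := exists_sys hN S
  have hn : S.Nontrivial := ⟨x, hx, y, hy, fun e => k (e ▸ cp_self hx)⟩
  let N : Set X := {z | z ∈ closure S ∧ ∀ n, z ∉ closure (P n)}
  have n1 : N.Nonempty := by
    obtain ⟨T, t1, t2, t3, t4, t5, -, f, t6⟩ := h.gT hN hS subset_rfl hx hy isClosed_empty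
      (disjoint_empty _)
    by_contra l
    exact absorb (fun a => h.k1 a _) (h.k3 f) isClosed_empty (fun _ l => l.elim) t1 t2 t4 t5
      (h.nr hN f hx hy k) (fun z hz m => l ⟨z, t3 hz, fun n l => m n (t6 n ⟨hz, l⟩)⟩) t4
  obtain ⟨e, he⟩ := exists_injective_nat ι
  let Bs := {O ∈ TopologicalSpace.countableBasis X | (O ∩ N).Nonempty}
  have key : ∀ U, IsOpen U → (U ∩ N).Nonempty → ∃ O ∈ Bs, O ⊆ U := fun U hU ⟨z, z1, z2⟩ => by
    obtain ⟨O, o1, o2, o3⟩ := (TopologicalSpace.isBasis_countableBasis X).exists_subset_of_mem_open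
      z1 hU
    exact ⟨O, ⟨o1, z, o2, z2⟩, o3⟩
  obtain ⟨O, hO⟩ := ((TopologicalSpace.countable_countableBasis X).mono
    (sep_subset _ _ : Bs ⊆ _)).exists_eq_range (by
      obtain ⟨O, o, -⟩ := key univ isOpen_univ (by rwa [univ_inter])
      exact ⟨O, o⟩)
  replace hO : Bs = range O := hO
  have hb : ∀ i, O i ∈ Bs := fun i => hO ▸ mem_range_self i
  choose w w1 w2 using fun i => (hb i).2
  choose f hf using fun i => h.loc hN hS hn (TopologicalSpace.isOpen_of_mem_countableBasis (hb i).1)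
    (w1 i) (w2 i).1 (w2 i).2 ((finite_lt_nat i).preimage he.injOn)
  let j : ι → ℕ := fun a => (Finset.range (e a + 1)).sup fun i => f i a
  obtain ⟨H, u, hE, hU⟩ := quot hN hB (fun a => h.k1 a (j a)) (fun a => h.k2 a _) (h.k3 j)
  have : CompactSpace (closure N) := isCompact_iff_compactSpace.1 isClosed_closure.isCompact
  have : Nonempty (closure N) := n1.closure.to_subtype
  obtain ⟨m, z, hz⟩ := nonempty_interior_of_iUnion_of_closed
    (f := fun m => (Subtype.val : closure N → X) ⁻¹' H m)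
    (fun m => (hE m).1.preimage continuous_subtype_val) (by rw [← preimage_iUnion, hU, preimage_univ])
  obtain ⟨t, t1, t2, t3⟩ := mem_interior.1 hz
  obtain ⟨U, u1, rfl⟩ := isOpen_induced_iff.1 t2
  obtain ⟨_, o1, o2⟩ := key U u1 (_root_.mem_closure_iff.1 z.2 U u1 t3)
  rw [hO] at o1
  obtain ⟨i, rfl⟩ := o1
  refine hf i j (fun a ha => Finset.le_sup (f := fun i => f i a)
    (Finset.mem_range.2 (Nat.lt_succ_of_le (not_lt.1 ha)))) (H m) (u m) (hE m) fun z z1 z2 z3 => ?_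
  exact t1 (show (⟨z, subset_closure ⟨z2, z3⟩⟩ : closure N) ∈ Subtype.val ⁻¹' U from o2 z1)

theorem main (hA : ∀ ε : ℝ, 0 < ε → ∀ 𝒮 : Set (Set X), 𝒮.PairwiseDisjoint id →
      (∀ S ∈ 𝒮, IsConnected S ∧ ε < Metric.diam S) → 𝒮.Finite) (hB : PB X) (S : Set X)
    (hS : IsConnected S) : IsPathConnected S := by
  have hN : Nul X := fun δ hδ A h1 h2 h3 => by
    have ne : ∀ n, (A n).Nonempty := fun n => let ⟨a, ha, _⟩ := h3 n; ⟨a, ha⟩
    refine infinite_range_of_injective (f := A) (fun a b e => by_contra fun k =>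
      (ne b).ne_empty (disjoint_self.1 (by
        have : Disjoint (A a) (A b) := h2 k
        rwa [e] at this))) (hA _ (half_pos hδ) _ ?_ ?_)
    · rintro _ ⟨a, rfl⟩ _ ⟨b, rfl⟩ k
      exact h2 fun e => k (e ▸ rfl)
    · rintro _ ⟨n, rfl⟩
      obtain ⟨a, ha, b, hb, l⟩ := h3 n
      exact ⟨⟨ne n, h1 n⟩, (half_lt_self hδ).trans_le
        (l.trans (dist_le_diam_of_mem isBounded_of_compactSpace ha hb))⟩
  obtain ⟨x, hx⟩ := hS.1
  refine ⟨x, hx, fun y hy => ?_⟩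
  obtain ⟨C, c1, c2, c3, c4, c5⟩ := conn hN hB hS.2 hx hy
  exact (peano hN c2 c3 c4 c5).mono c1

end Pool.Agent.H.MP_dd0f47_gt
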